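import Mathlib
import Pool.Agent.Y521.SD.Stm

/-! The twisted product is an affine manifold. -/

set_option autoImplicit false

open Set Filter Topology

noncomputable section

namespace Pool.Agent.Y379.SD

open Pool.Agent.Y522 Pool.Agent.Y521.SD

theorem exp_two (t : ℝ) : Complex.exp (2 * Real.pi * t * Complex.I) =
    Complex.exp (Real.pi * t * Complex.I) ^ 2 := by
  rw [sq, ← Complex.exp_add]
  congr 1
  ring

theorem norm_exp1 (t : ℝ) : ‖Complex.exp (Real.pi * t * Complex.I)‖ = 1 := by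
  have := Complex.norm_exp_ofReal_mul_I (Real.pi * t)
  push_cast at this
  exact this

theorem exp_shift (t : ℝ) : Complex.exp (Real.pi * ((t + 1 : ℝ) : ℂ) * Complex.I) =
    -Complex.exp (Real.pi * t * Complex.I) := by
  have h : (Real.pi : ℂ) * ((t + 1 : ℝ) : ℂ) * Complex.I =
      Real.pi * t * Complex.I + Real.pi * Complex.I := by push_cast; ring
  rw [h, Complex.exp_add, Complex.exp_pi_mul_I]
  ring

theorem norm_sq4 (x : E 4) : ‖x‖ ^ 2 = x 0 ^ 2 + ‖WithLp.toLp 2 (fun i : Fin 3 => x i.succ)‖ ^ 2 := by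
  rw [EuclideanSpace.norm_sq_eq, EuclideanSpace.norm_sq_eq, Fin.sum_univ_succ]
  simp [Real.norm_eq_abs, sq_abs]

theorem first (x : E 4) (hx : x ≠ 0) : ‖(pTw x).1‖ = 1 ∧
    (pTw x).2.1 ^ 2 = ((‖(pTw x).2.1‖ ^ 2 : ℝ) : ℂ) * (pTw x).1 ∧
    ‖(pTw x).2.1‖ ^ 2 + ‖(pTw x).2.2‖ ^ 2 = 1 := by
  have hx0 : 0 < ‖x‖ := norm_pos_iff.2 hx
  set t := Real.logb 2 ‖x‖ with ht
  have hn : ‖(pTw x).2.1‖ = |‖x‖⁻¹ * x 0| := by
    change ‖((‖x‖⁻¹ * x 0 : ℝ) : ℂ) * Complex.exp (Real.pi * t * Complex.I)‖ = _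
    rw [norm_mul, norm_exp1, mul_one, Complex.norm_real, Real.norm_eq_abs]
  refine ⟨?_, ?_, ?_⟩
  · change ‖Complex.exp (2 * Real.pi * t * Complex.I)‖ = 1
    rw [exp_two, norm_pow, norm_exp1, one_pow]
  · rw [hn, sq_abs]
    change (((‖x‖⁻¹ * x 0 : ℝ) : ℂ) * Complex.exp (Real.pi * t * Complex.I)) ^ 2 =
      _ * Complex.exp (2 * Real.pi * t * Complex.I)
    rw [exp_two]
    push_cast
    ring
  · rw [hn, sq_abs]
    change _ + ‖‖x‖⁻¹ • WithLp.toLp 2 (fun i : Fin 3 => x i.succ)‖ ^ 2 = 1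
    rw [norm_smul, mul_pow, mul_pow, Real.norm_eq_abs, sq_abs, ← mul_add, ← norm_sq4, ← mul_pow,
      inv_mul_cancel₀ hx0.ne', one_pow]

/-- the linear map `2 r` -/
def Alin : E 4 ≃ₗ[ℝ] E 4 where
  toFun x := WithLp.toLp 2 (fun i => (if i = 0 then -2 else 2) * x i)
  map_add' x y := by
    ext i
    simp [mul_add]
  map_smul' c x := by
    ext i
    simp
    split_ifs <;> ring
  invFun x := WithLp.toLp 2 (fun i => (if i = 0 then -(1 / 2) else 1 / 2) * x i)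
  left_inv x := by
    ext i
    simp
    split_ifs <;> ring
  right_inv x := by
    ext i
    simp
    split_ifs <;> ring

def A4 : E 4 ≃L[ℝ] E 4 := Alin.toContinuousLinearEquiv

theorem A4_apply (x : E 4) (i : Fin 4) : A4 x i = (if i = 0 then -2 else 2) * x i := rfl

theorem norm_A4 (x : E 4) : ‖A4 x‖ = 2 * ‖x‖ := by
  have h : ‖A4 x‖ ^ 2 = (2 * ‖x‖) ^ 2 := by
    rw [mul_pow, EuclideanSpace.norm_sq_eq, EuclideanSpace.norm_sq_eq, Finset.mul_sum]
    apply Finset.sum_congr rfl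
    intro i _
    rw [A4_apply, Real.norm_eq_abs, sq_abs, Real.norm_eq_abs, sq_abs]
    split_ifs <;> ring
  exact (sq_eq_sq₀ (norm_nonneg _) (by positivity)).1 h

theorem A4_ne {x : E 4} (hx : x ≠ 0) : A4 x ≠ 0 := by
  rw [← norm_pos_iff, norm_A4]
  have := norm_pos_iff.2 hx
  positivity

theorem pTw_A (x : E 4) (hx : x ≠ 0) : pTw (A4 x) = pTw x := by
  have hx0 : 0 < ‖x‖ := norm_pos_iff.2 hx
  have hlog : Real.logb 2 ‖A4 x‖ = Real.logb 2 ‖x‖ + 1 := by
    rw [norm_A4, Real.logb_mul (by norm_num) hx0.ne', Real.logb_self_eq_one (by norm_num)]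
    ring
  unfold pTw
  rw [hlog]
  refine Prod.ext ?_ (Prod.ext ?_ ?_)
  · simp only
    rw [exp_two, exp_two, exp_shift, neg_sq]
  · simp only
    rw [exp_shift, norm_A4, A4_apply, if_pos rfl]
    have : (2 * ‖x‖)⁻¹ * (-2 * x 0) = -(‖x‖⁻¹ * x 0) := by
      field_simp
    rw [this]
    push_cast
    ring
  · simp only
    rw [norm_A4]
    ext i
    simp only [PiLp.smul_apply, smul_eq_mul]
    rw [A4_apply, if_neg (Fin.succ_ne_zero i)]
    field_simp

theorem pow_A (u : E 4) (hu : u ≠ 0) (k : ℕ) : (A4 ^ k) u ≠ 0 ∧ ‖(A4 ^ k) u‖ = 2 ^ k * ‖u‖ ∧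
    pTw ((A4 ^ k) u) = pTw u := by
  induction k with
  | zero =>
    rw [pow_zero, pow_zero, one_mul]
    exact ⟨hu, rfl, rfl⟩
  | succ k ih =>
    have h : (A4 ^ (k + 1)) u = A4 ((A4 ^ k) u) := by
      rw [pow_succ']
      rfl
    rw [h]
    refine ⟨A4_ne ih.1, ?_, ?_⟩
    · rw [norm_A4, ih.2.1]; ring
    · rw [pTw_A _ ih.1, ih.2.2]

theorem eq_of_norm {u v : E 4} (hu : u ≠ 0) (h : ‖u‖ = ‖v‖) (hp : pTw u = pTw v) : u = v := by
  have hu0 : 0 < ‖u‖ := norm_pos_iff.2 hu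
  unfold pTw at hp
  rw [← h] at hp
  rw [Prod.mk.injEq, Prod.mk.injEq] at hp
  obtain ⟨-, h1, h2⟩ := hp
  have h3 := mul_right_cancel₀ (Complex.exp_ne_zero _) h1
  have h4 : ‖u‖⁻¹ * u 0 = ‖u‖⁻¹ * v 0 := by exact_mod_cast h3
  have h5 := mul_left_cancel₀ (inv_ne_zero hu0.ne') h4
  have h6 := smul_right_injective _ (inv_ne_zero hu0.ne') h2
  ext i
  refine Fin.cases h5 (fun j => ?_) i
  have := congrArg (fun w : E 3 => w j) h6
  exact this

theorem cont_pTw : ContinuousOn pTw {x : E 4 | x ≠ 0} := by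
  have hlog : ContinuousOn (fun x : E 4 => Real.logb 2 ‖x‖) {x : E 4 | x ≠ 0} := by
    unfold Real.logb
    apply ContinuousOn.div_const
    exact continuous_norm.continuousOn.log (fun x hx => norm_ne_zero_iff.2 hx)
  have hlogc : ContinuousOn (fun x : E 4 => ((Real.logb 2 ‖x‖ : ℝ) : ℂ)) {x : E 4 | x ≠ 0} :=
    Complex.continuous_ofReal.comp_continuousOn hlog
  have hinv : ContinuousOn (fun x : E 4 => ‖x‖⁻¹) {x : E 4 | x ≠ 0} :=
    continuous_norm.continuousOn.inv₀ (fun x hx => norm_ne_zero_iff.2 hx)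
  unfold pTw
  refine ContinuousOn.prodMk ?_ (ContinuousOn.prodMk ?_ ?_)
  · exact Complex.continuous_exp.comp_continuousOn
      ((continuousOn_const.mul hlogc).mul continuousOn_const)
  · refine ContinuousOn.mul ?_ ?_
    · refine Complex.continuous_ofReal.comp_continuousOn (hinv.mul ?_)
      fun_prop
    · exact Complex.continuous_exp.comp_continuousOn
        ((continuousOn_const.mul hlogc).mul continuousOn_const)
  · refine hinv.smul ?_
    fun_prop

theorem surj (p : Tw) : ∃ v : E 4, 1 ≤ ‖v‖ ∧ ‖v‖ ≤ 2 ∧ pTw v = (p : ℂ × ℂ × E 3) := by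
  obtain ⟨⟨p1, p2, p3⟩, h1, h2, h3⟩ := p
  simp only at h1 h2 h3
  set a := p1.arg / (2 * Real.pi) with ha
  set t := Int.fract a with ht
  have hpi : (Real.pi : ℂ) ≠ 0 := by exact_mod_cast Real.pi_ne_zero
  have hp1 : p1 = Complex.exp (2 * Real.pi * t * Complex.I) := by
    have h4 : p1 = Complex.exp (p1.arg * Complex.I) := by
      have := Complex.norm_mul_exp_arg_mul_I p1
      rw [h1] at this
      simpa using this.symm
    rw [h4, Complex.exp_eq_exp_iff_exists_int]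
    refine ⟨⌊a⌋, ?_⟩
    have h5 : (p1.arg : ℂ) = 2 * Real.pi * (a : ℂ) := by
      rw [ha]
      push_cast
      field_simp
    have h6 : (a : ℂ) = t + (⌊a⌋ : ℂ) := by
      rw [ht]
      have := Int.fract_add_floor a
      exact_mod_cast this.symm
    rw [h4] at h5
    have h7 : (p1.arg : ℂ) = 2 * Real.pi * (a : ℂ) := by
      rw [ha]
      push_cast
      field_simp
    rw [h7, h6]
    ring
  have ht0 : 0 ≤ t := Int.fract_nonneg _
  have ht1 : t < 1 := Int.fract_lt_one _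
  have h4 : p2 ^ 2 = ((‖p2‖ : ℂ) * Complex.exp (Real.pi * t * Complex.I)) ^ 2 := by
    rw [h2, hp1, exp_two]
    push_cast
    ring
  obtain ⟨s, hs1, hs2⟩ : ∃ s : ℝ, p2 = (s : ℂ) * Complex.exp (Real.pi * t * Complex.I) ∧
      s ^ 2 = ‖p2‖ ^ 2 := by
    rcases sq_eq_sq_iff_eq_or_eq_neg.1 h4 with h | h
    · exact ⟨‖p2‖, h, rfl⟩
    · refine ⟨-‖p2‖, ?_, by ring⟩
      push_cast
      rw [neg_mul]
      exact h
  set ρ : ℝ := (2 : ℝ) ^ t with hρ
  have hρ0 : 0 < ρ := Real.rpow_pos_of_pos (by norm_num) _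
  set v : E 4 := WithLp.toLp 2 (Fin.cons (ρ * s) (fun i => ρ * p3 i)) with hv
  have hv0 : v 0 = ρ * s := rfl
  have hvs : ∀ i : Fin 3, v i.succ = ρ * p3 i := fun i => rfl
  have hvn : ‖v‖ = ρ := by
    have h5 : ‖v‖ ^ 2 = ρ ^ 2 := by
      rw [norm_sq4, hv0]
      have h6 : (WithLp.toLp 2 (fun i : Fin 3 => v i.succ) : E 3) = ρ • p3 := by
        ext i
        simp only [PiLp.smul_apply, smul_eq_mul]
        exact hvs i
      rw [h6, norm_smul, Real.norm_eq_abs, mul_pow, mul_pow, sq_abs, hs2, ← mul_add, h3, mul_one]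
    exact (sq_eq_sq₀ (norm_nonneg _) hρ0.le).1 h5
  have hlog : Real.logb 2 ‖v‖ = t := by
    rw [hvn, hρ, Real.logb_rpow (by norm_num) (by norm_num)]
  refine ⟨v, ?_, ?_, ?_⟩
  · rw [hvn]
    exact Real.one_le_rpow (by norm_num) ht0
  · rw [hvn]
    calc (2 : ℝ) ^ t ≤ (2 : ℝ) ^ (1 : ℝ) :=
          Real.rpow_le_rpow_of_exponent_le (by norm_num) ht1.le
      _ = 2 := Real.rpow_one 2
  · unfold pTw
    rw [hlog]
    refine Prod.ext ?_ (Prod.ext ?_ ?_)
    · exact hp1.symm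
    · simp only
      rw [hvn, hv0, ← mul_assoc, inv_mul_cancel₀ hρ0.ne', one_mul]
      exact hs1.symm
    · simp only
      rw [hvn]
      ext i
      simp only [PiLp.smul_apply, smul_eq_mul]
      rw [hvs, ← mul_assoc, inv_mul_cancel₀ hρ0.ne', one_mul]

theorem sTw (hQ : StQuot) : StTw := by
  refine ⟨first, ?_⟩
  intro π hπ
  apply hQ 4 Tw A4 π norm_A4
  · rw [IsInducing.subtypeVal.continuousOn_iff]
    exact cont_pTw.congr (fun x hx => hπ x hx)
  · intro p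
    obtain ⟨v, hv1, hv2, hv3⟩ := surj p
    refine ⟨v, hv1, hv2, Subtype.ext ?_⟩
    rw [hπ v (by rintro rfl; rw [norm_zero] at hv1; linarith), hv3]
  · intro x hx
    apply Subtype.ext
    rw [hπ _ (A4_ne hx), hπ _ hx, pTw_A x hx]
  · intro u v hu hv huv hp
    have hu0 : 0 < ‖u‖ := norm_pos_iff.2 hu
    have hv0 : 0 < ‖v‖ := norm_pos_iff.2 hv
    have h1 : pTw u = pTw v := by rw [← hπ u hu, ← hπ v hv, hp]
    have h2 : Complex.exp (2 * Real.pi * Real.logb 2 ‖v‖ * Complex.I) =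
        Complex.exp (2 * Real.pi * Real.logb 2 ‖u‖ * Complex.I) :=
      (congrArg Prod.fst h1).symm
    rw [Complex.exp_eq_exp_iff_exists_int] at h2
    obtain ⟨n, hn⟩ := h2
    have hpi : (Real.pi : ℂ) ≠ 0 := by exact_mod_cast Real.pi_ne_zero
    have h3 : ((Real.logb 2 ‖v‖ : ℝ) : ℂ) = ((Real.logb 2 ‖u‖ + n : ℝ) : ℂ) := by
      push_cast
      have h4 : (2 * Real.pi * Complex.I) * ((Real.logb 2 ‖v‖ : ℝ) : ℂ) =
          (2 * Real.pi * Complex.I) * (((Real.logb 2 ‖u‖ : ℝ) : ℂ) + n) := by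
        linear_combination hn
      exact mul_left_cancel₀ (by simp [hpi]) h4
    have h5 : Real.logb 2 ‖v‖ = Real.logb 2 ‖u‖ + n := by exact_mod_cast h3
    have h6 : Real.logb 2 ‖u‖ ≤ Real.logb 2 ‖v‖ :=
      Real.logb_le_logb_of_le (by norm_num) hu0 huv
    have h7 : 0 ≤ n := by
      have : (0 : ℝ) ≤ n := by linarith
      exact_mod_cast this
    obtain ⟨k, rfl⟩ := Int.eq_ofNat_of_zero_le h7
    refine ⟨k, ?_⟩
    obtain ⟨g1, g2, g3⟩ := pow_A u hu k
    have h8 : ‖v‖ = 2 ^ k * ‖u‖ := by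
      have e1 : ‖v‖ = (2 : ℝ) ^ (Real.logb 2 ‖v‖) :=
        (Real.rpow_logb (by norm_num) (by norm_num) hv0).symm
      rw [e1, h5, Real.rpow_add (by norm_num), Real.rpow_logb (by norm_num) (by norm_num) hu0]
      push_cast
      rw [Real.rpow_natCast]
      ring
    exact (eq_of_norm g1 (by rw [g2, h8]) (by rw [g3, h1])).symm

end Pool.Agent.Y379.SD
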